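import Pool.Agent.helper53.ORT.Spec

/-!
# Project ort, row FRO
-/

set_option autoImplicit false

namespace Pool.Agent.ORT

open Module Pool.Agent.GS

theorem FRO_center (cno : CNO_stmt) {F V : Type} [Field F] [Finite F] [AddCommGroup V] [Module F V]
    [FiniteDimensional F V] (B : LinearMap.BilinForm F V) (hc : ringChar F ≠ 2) (hB : Sym B)
    (hn : 6 ≤ finrank F V) (s : Om B) (hs : s ∈ Subgroup.center (Om B)) :
    ∃ c : F, ∀ v, (s : Equiv.Perm V) v = c • v := by
  refine cno B hc hB hn (s : Equiv.Perm V) (Om_le B s.2) fun g hg => ⟨1, fun v => ?_⟩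
  have h1 : (⟨g, hg⟩ : Om B) * s = s * ⟨g, hg⟩ := Subgroup.mem_center_iff.1 hs ⟨g, hg⟩
  have h2 : g * (s : Equiv.Perm V) = (s : Equiv.Perm V) * g := congrArg Subtype.val h1
  rw [← h2, mul_assoc g, mul_inv_cancel, mul_one, mul_inv_cancel, Equiv.Perm.one_apply, one_smul]

theorem FRO (cno : CNO_stmt) (nom : NOM_stmt) (lrb : LRB_stmt) (ug : URG_stmt)
    (ad : GS.AD_stmt) : FRO_stmt := by
  intro F V _ _ _ _ _ B hc hB hn
  classical
  have h2 : (2 : F) ≠ 0 := Ring.two_ne_zero hc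
  -- the vectors `a`, `b`
  obtain ⟨a, -, -, ha⟩ := ug B hc hB 0 0 (fun i => i.elim0) (fun i => i.elim0)
    ⟨fun i => i.elim0, fun i => i.elim0⟩ (by omega) 1 one_ne_zero
  have hOg : Og B (fun _ : Fin 1 => a) :=
    ⟨fun i j hij => absurd (Subsingleton.elim i j) hij, fun _ => by rw [ha]; exact one_ne_zero⟩
  obtain ⟨b, hb, -, hbb⟩ := ug B hc hB 1 0 (fun _ => a) (fun i => i.elim0) hOg (by omega) 1
    one_ne_zero
  have hba : B b a = 0 := hb 0
  have haa : B a a ≠ 0 := by rw [ha]; exact one_ne_zero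
  have ha0 : a ≠ 0 := fun h => haa (by rw [h, map_zero])
  have hb0 : b ≠ 0 := fun h => by
    rw [h, map_zero] at hbb
    exact one_ne_zero hbb.symm
  have hy : rf B a ∈ SpG B := rf_mem hB a
  -- the action
  obtain ⟨N, Ad, hN, hAd⟩ := ad (Om B).subtype (Subgroup.subtype_injective _)
  have hmem : ∀ u : Equiv.Perm V, u ∈ SpG B → u ∈ N := by
    intro u hu
    refine hN u (fun g => ⟨⟨u * g * u⁻¹, Om_conj hu g.2⟩, rfl⟩) (fun g => ?_)
    have h3 := Om_conj ((SpG B).inv_mem hu) g.2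
    rw [inv_inv] at h3
    exact ⟨⟨u⁻¹ * g * u, h3⟩, rfl⟩
  have hyN := hmem _ hy
  have hx1 : Ad ⟨rf B a, hyN⟩ ^ 2 = 1 := by
    rw [← map_pow]
    have : (⟨rf B a, hyN⟩ : N) ^ 2 = 1 := by
      apply Subtype.ext
      rw [pow_two]
      exact rf_sq a
    rw [this, map_one]
  have hx2 : Ad ⟨rf B a, hyN⟩ ≠ 1 := by
    intro hx
    have key : ∀ g ∈ Om B, ∃ c : F, ∀ v, (rf B a * g * (rf B a)⁻¹ * g⁻¹) v = c • v := by
      intro g hg
      have hh : rf B a * g * (rf B a)⁻¹ ∈ Om B := Om_conj hy hg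
      have h3 := hAd ⟨rf B a, hyN⟩ ⟨g, hg⟩ ⟨_, hh⟩ rfl
      rw [hx] at h3
      have h4 : (QuotientGroup.mk (⟨g, hg⟩ : Om B) : POm B) =
          QuotientGroup.mk (⟨_, hh⟩ : Om B) := h3
      rw [QuotientGroup.eq] at h4
      have h5 : (⟨_, hh⟩ : Om B) * (⟨g, hg⟩ : Om B)⁻¹ ∈ Subgroup.center (Om B) := by
        have h6 := Subgroup.mem_center_iff.1 h4 ⟨g, hg⟩
        have h7 : (⟨_, hh⟩ : Om B) * (⟨g, hg⟩ : Om B)⁻¹ =
            (⟨g, hg⟩ : Om B)⁻¹ * (⟨_, hh⟩ : Om B) := by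
          rw [mul_inv_eq_iff_eq_mul, ← h6, mul_inv_cancel_left]
        rw [h7]
        exact h4
      obtain ⟨c, hcc⟩ := FRO_center cno B hc hB hn _ h5
      exact ⟨c, fun v => hcc v⟩
    obtain ⟨c, hcv⟩ := cno B hc hB hn (rf B a) hy key
    have e1 : c = -1 := by
      have := hcv a
      rw [rf_self haa] at this
      have h3 : (c + 1) • a = 0 := by rw [add_smul, one_smul, ← this, neg_add_cancel]
      rcases smul_eq_zero.1 h3 with h | h
      · exact eq_neg_of_add_eq_zero_left h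
      · exact absurd h ha0
    have e2 : c = 1 := by
      have := hcv b
      rw [rf_of_orth haa hba] at this
      have h3 : (c - 1) • b = 0 := by rw [sub_smul, one_smul, ← this, sub_self]
      rcases smul_eq_zero.1 h3 with h | h
      · exact sub_eq_zero.1 h
      · exact absurd h hb0
    apply h2
    have : (1 : F) = -1 := e2.symm.trans e1
    linear_combination this
  refine ⟨Ad ⟨rf B a, hyN⟩, ⟨rf B a, RingEquiv.refl F, 1, Sim_of_mem hy, fun g h hgh =>
    hAd ⟨rf B a, hyN⟩ g h hgh⟩, orderOf_eq_prime hx1 hx2, ?_⟩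
  intro k r hr hrF hG
  obtain ⟨g, hg⟩ := hG
  choose γ hγ using fun i => QuotientGroup.mk_surjective (g i)
  have hu : ∀ i, (γ i : Equiv.Perm V) ∈ SpG B := fun i => Om_le B (γ i).2
  have hconj : ∀ i, Ad ⟨(γ i : Equiv.Perm V), hmem _ (hu i)⟩ = MulAut.conj (g i) := by
    intro i
    refine MulEquiv.ext fun q => ?_
    obtain ⟨h, rfl⟩ := QuotientGroup.mk_surjective q
    rw [hAd ⟨(γ i : Equiv.Perm V), hmem _ (hu i)⟩ h (γ i * h * (γ i)⁻¹) rfl, MulAut.conj_apply,
      ← hγ i]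
    rfl
  let n : Fin k → N := fun i => ⟨(γ i : Equiv.Perm V), hmem _ (hu i)⟩ * ⟨rf B a, hyN⟩ *
    ⟨(γ i : Equiv.Perm V), hmem _ (hu i)⟩⁻¹
  have hn1 : ∀ i, MulAut.conj (g i) * Ad ⟨rf B a, hyN⟩ * (MulAut.conj (g i))⁻¹ = Ad (n i) := by
    intro i
    rw [map_mul, map_mul, map_inv, hconj i]
  have hrange : (Set.range fun i => MulAut.conj (g i) * Ad ⟨rf B a, hyN⟩ *
      (MulAut.conj (g i))⁻¹) = Ad '' (Set.range n) := by
    rw [← Set.range_comp]
    exact congrArg Set.range (funext hn1)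
  rw [hrange, ← MonoidHom.map_closure] at hg
  have hd : r ∣ Nat.card (Subgroup.closure (Set.range n)) :=
    hg.trans (Subgroup.card_dvd_of_surjective (Ad.subgroupMap (Subgroup.closure (Set.range n)))
      (MonoidHom.subgroupMap_surjective Ad _))
  have hmap : (Subgroup.closure (Set.range n)).map N.subtype =
      Subgroup.closure (Set.range fun i => (γ i : Equiv.Perm V) * rf B a *
        (γ i : Equiv.Perm V)⁻¹) := by
    rw [MonoidHom.map_closure, ← Set.range_comp]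
    rfl
  have hcard : Nat.card (Subgroup.closure (Set.range n)) = Nat.card
      (Subgroup.closure (Set.range fun i => (γ i : Equiv.Perm V) * rf B a *
        (γ i : Equiv.Perm V)⁻¹)) := by
    rw [← hmap]
    exact Nat.card_congr (Subgroup.equivMapOfInjective _ N.subtype
      (Subgroup.subtype_injective N)).toEquiv
  rw [hcard] at hd
  exact lrb B hc hB a k (fun i => (γ i : Equiv.Perm V)) hu r hr hrF hd

end Pool.Agent.ORT
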